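import Pool.Agent.W872.SV.Main
import Pool.Agent.W872.SV.Num
import Pool.Agent.W872.SV.QSTR
import Pool.Agent.W872.SV.QIND
import Pool.Agent.W872.SV.QCNT
import Pool.Agent.W872.SV.QCA
import Pool.Agent.W872.SV.QCB
import Pool.Agent.W872.SV.QCASE
import Pool.Agent.W872.SV.QACNT
import Pool.Agent.W872.SV.QBCNT
import Pool.Agent.W872.SV.QNS
import Pool.Agent.W872.SV.QDEG
import Pool.Agent.W872.SV.QEDG

/-! MP_e73337_co: switching reconstruction of graphs.

`sw G i` is the switch of `G` at the vertex `i`, `SameDeck G H` says that `G` and `H` have the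
same switching deck, `Recon G` that `G` is switching-reconstructible, `dg G i` is the degree. -/

set_option autoImplicit false

namespace Pool.Agent.Results.MP_e73337_co.FewExceptions

open Finset W872.SV

theorem result :
    -- (1) few graphs are not switching-reconstructible
    (∃ n₀ : ℕ, ∀ n ≥ n₀,
      ((open Classical in univ.filter fun G : SimpleGraph (Fin n) => ¬ Recon G).card : ℝ) ≤
        (2 : ℝ) ^ ((199 / 200 : ℝ) * (n.choose 2 : ℝ))) ∧
    -- (2) degree criterion
    (∀ n : ℕ, n ≠ 4 → ∀ G : SimpleGraph (Fin n),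
      (∃ i, ∀ v, v ≠ i → (G.Adj i v → dg G i + dg G v ≠ n) ∧
        (¬ G.Adj i v → dg G i + dg G v + 2 ≠ n)) → Recon G) ∧
    -- (3) consequence for the maximum and minimum degree
    (∀ n : ℕ, n ≠ 4 → ∀ G : SimpleGraph (Fin n),
      ((∃ i, ∀ v, dg G i + dg G v + 2 < n) ∨ (∃ i, ∀ v, n < dg G i + dg G v)) → Recon G) :=
  W872.SV.result QSTR.main QIND.main QCNT.main QCA.main QCB.main QCASE.main QACNT.main
    QBCNT.main QNS.main Num.main QEDG.main QDEG.main

end Pool.Agent.Results.MP_e73337_co.FewExceptions
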